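import Mathlib

/-!
# Coordinates modulo torsion on a group of rank two
-/

namespace Pool.Agent.MP77.H93

open Module

variable {H : Type*} [AddCommGroup H]

/-- coordinates `(u, y)` modulo torsion, `v` being a multiple of `w = (0, 1)`. -/
structure Coord (v : H) where
  u : H →+ ℤ
  y : H →+ ℤ
  z : H
  w : H
  uz : u z = 1
  uw : u w = 0
  yz : y z = 0
  yw : y w = 1
  tors : ∀ x, ∃ n : ℤ, n ≠ 0 ∧ n • (x - u x • z - y x • w) = 0
  uv : u v = 0
  yv : y v ≠ 0

theorem exists_coord [Module.Finite ℤ H] (hr : finrank ℤ H = 2) (v : H)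
    (hv : ∀ n : ℤ, n • v = 0 → n = 0) : Nonempty (Coord v) := by
  classical
  let T := Submodule.torsion ℤ H
  have hfr : finrank ℤ (H ⧸ T) = 2 := by
    rw [finrank_quotient_eq_of_le_torsion le_rfl, hr]
  have : Module.Free ℤ (H ⧸ T) := Module.free_of_finite_type_torsion_free'
  let b : Basis (Fin 2) ℤ (H ⧸ T) := Module.finBasisOfFinrankEq ℤ _ hfr
  let c : Fin 2 → H →+ ℤ := fun i => ((b.coord i).comp T.mkQ).toAddMonoidHom
  have hc : ∀ i x, c i x = b.repr (T.mkQ x) i := fun i x => rfl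
  have hker : ∀ x, c 0 x = 0 → c 1 x = 0 → ∃ n : ℤ, n ≠ 0 ∧ n • x = 0 := by
    intro x h0 h1
    have h2 : T.mkQ x = 0 := by
      apply b.repr.injective
      ext i
      fin_cases i
      · simpa [hc] using h0
      · simpa [hc] using h1
    rw [Submodule.mkQ_apply, Submodule.Quotient.mk_eq_zero] at h2
    obtain ⟨a, ha⟩ := (Submodule.mem_torsion_iff x).1 h2
    exact ⟨a.1, nonZeroDivisors.ne_zero a.2, ha⟩
  obtain ⟨f0, hf0⟩ := T.mkQ_surjective (b 0)
  obtain ⟨f1, hf1⟩ := T.mkQ_surjective (b 1)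
  have c00 : c 0 f0 = 1 := by rw [hc, hf0]; simp
  have c10 : c 1 f0 = 0 := by rw [hc, hf0]; simp
  have c01 : c 0 f1 = 0 := by rw [hc, hf1]; simp
  have c11 : c 1 f1 = 1 := by rw [hc, hf1]; simp
  set v0 := c 0 v with hv0
  set v1 := c 1 v with hv1
  set d : ℤ := (Int.gcd v0 v1 : ℤ) with hd
  have hd0 : d ≠ 0 := by
    intro h
    have h' : Int.gcd v0 v1 = 0 := by
      rw [hd] at h
      exact Int.natCast_eq_zero.1 h
    rw [Int.gcd_eq_zero_iff] at h'
    obtain ⟨n, hn, hnv⟩ := hker v h'.1 h'.2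
    exact hn (hv n hnv)
  obtain ⟨a0, ha0⟩ : d ∣ v0 := Int.gcd_dvd_left _ _
  obtain ⟨a1, ha1⟩ : d ∣ v1 := Int.gcd_dvd_right _ _
  have hbz := Int.gcd_eq_gcd_ab v0 v1
  set s := Int.gcdA v0 v1
  set t := Int.gcdB v0 v1
  have hst : a0 * s + a1 * t = 1 := by
    apply mul_left_cancel₀ hd0
    rw [mul_one]
    calc d * (a0 * s + a1 * t) = (d * a0) * s + (d * a1) * t := by ring
      _ = v0 * s + v1 * t := by rw [← ha0, ← ha1]
      _ = d := by rw [hd]; exact hbz.symm
  refine ⟨{ u := AddMonoidHom.mk' (fun x => a0 * c 1 x - a1 * c 0 x)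
              (by intro x y; simp only [map_add]; ring)
            y := AddMonoidHom.mk' (fun x => s * c 0 x + t * c 1 x)
              (by intro x y; simp only [map_add]; ring)
            z := (-t) • f0 + s • f1
            w := a0 • f0 + a1 • f1
            uz := ?_, uw := ?_, yz := ?_, yw := ?_, tors := ?_, uv := ?_, yv := ?_ }⟩
  · simp only [AddMonoidHom.mk'_apply, map_add, map_zsmul, c00, c10, c01, c11, smul_eq_mul]
    linear_combination hst
  · simp only [AddMonoidHom.mk'_apply, map_add, map_zsmul, c00, c10, c01, c11, smul_eq_mul]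
    ring
  · simp only [AddMonoidHom.mk'_apply, map_add, map_zsmul, c00, c10, c01, c11, smul_eq_mul]
    ring
  · simp only [AddMonoidHom.mk'_apply, map_add, map_zsmul, c00, c10, c01, c11, smul_eq_mul]
    linear_combination hst
  · intro x
    apply hker
    · simp only [AddMonoidHom.mk'_apply, map_sub, map_add, map_zsmul, c00, c01, smul_eq_mul]
      linear_combination (-(c 0 x)) * hst
    · simp only [AddMonoidHom.mk'_apply, map_sub, map_add, map_zsmul, c10, c11, smul_eq_mul]
      linear_combination (-(c 1 x)) * hst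
  · simp only [AddMonoidHom.mk'_apply, ← hv0, ← hv1]
    rw [ha0, ha1]; ring
  · simp only [AddMonoidHom.mk'_apply, ← hv0, ← hv1]
    have : s * v0 + t * v1 = d := by rw [hd, hbz]; ring
    rw [this]; exact hd0

end Pool.Agent.MP77.H93
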