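import Mathlib
import Pool.Agent.Lib.MP_77ebfb_ag.H10.Curve
import Pool.Agent.Lib.MP_77ebfb_ag.H10.Contr
import Pool.Agent.Lib.MP_77ebfb_ag.H93.Coord

/-!
# Rank two, discriminant zero: at most two classes downstairs of a curve blow-up
-/

namespace Pool.Agent.MP77.H93

open Module Pool.Agent.MP77.H10

variable {H : Type*} [AddCommGroup H] {B : H →+ H →+ H →+ ℤ} {v : H}

/-- an additive map to `ℤ` in coordinates. -/
theorem lin (co : Coord v) (f : H →+ ℤ) (x : H) :
    f x = co.u x * f co.z + co.y x * f co.w := by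
  obtain ⟨n, hn, h⟩ := co.tors x
  have h1 := congrArg f h
  rw [map_zsmul, map_sub, map_sub, map_zsmul, map_zsmul, map_zero, smul_eq_mul, smul_eq_mul,
    smul_eq_mul] at h1
  have h2 := (mul_eq_zero.1 h1).resolve_left hn
  linarith

theorem ww (h23 : ∀ x y z, B x y z = B x z y) (h12 : ∀ x y z, B x y z = B y x z)
    (co : Coord v) (hs : ∀ x, B v v x = 0) (x : H) : B co.w co.w x = 0 := by
  have h1 := hs x
  have h2 : B v v x = co.y v * B v co.w x := by
    rw [h23, lin co (B v x) v, co.uv, zero_mul, zero_add, h23 v x co.w]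
  have h3 : B v co.w x = co.y v * B co.w co.w x := by
    rw [h12, h23, lin co (B co.w x) v, co.uv, zero_mul, zero_add, h23 co.w x co.w]
  rw [h2, h3] at h1
  exact (mul_eq_zero.1 ((mul_eq_zero.1 h1).resolve_left co.yv)).resolve_left co.yv

/-- the trilinear form in coordinates. -/
theorem expand (h23 : ∀ x y z, B x y z = B x z y) (h12 : ∀ x y z, B x y z = B y x z)
    (co : Coord v) (hs : ∀ x, B v v x = 0) (x x' x'' : H) :
    B x x' x'' = B co.z co.z co.z * (co.u x * co.u x' * co.u x'') + B co.z co.z co.w *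
      (co.u x * co.u x' * co.y x'' + co.u x * co.y x' * co.u x'' +
        co.y x * co.u x' * co.u x'') := by
  have w1 : ∀ a, B co.w co.w a = 0 := ww h23 h12 co hs
  have w2 : ∀ a, B a co.w co.w = 0 := by
    intro a; rw [h12, h23]; exact w1 a
  have e1 : ∀ a b, B a b co.z = co.u a * co.u b * B co.z co.z co.z +
      (co.u a * co.y b + co.y a * co.u b) * B co.z co.z co.w := by
    intro a b
    rw [h23, h12, lin co (B co.z a) b, h23 co.z a co.z, h23 co.z a co.w,
      lin co (B co.z co.z) a, lin co (B co.z co.w) a, h23 co.z co.w co.z, w2]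
    ring
  have e2 : ∀ a b, B a b co.w = co.u a * co.u b * B co.z co.z co.w := by
    intro a b
    rw [h23, h12, lin co (B co.w a) b, h23 co.w a co.z, h23 co.w a co.w,
      lin co (B co.w co.z) a, lin co (B co.w co.w) a, h12 co.w co.z co.z,
      h23 co.z co.w co.z, h12 co.w co.z co.w, w2, w1, w1]
    ring
  rw [lin co (B x x') x'', e1 x x', e2 x x']
  ring

/-- a decomposition `H = ker lam + Z E` of curve blow-up type, the form being nonzero on the
kernel. -/
structure Sol (B : H →+ H →+ H →+ ℤ) (lam : H →+ ℤ) (E : H) : Prop where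
  lamE : lam E = 1
  perp : ∀ x y, lam x = 0 → lam y = 0 → B x y E = 0
  ne : ∃ x, lam x = 0 ∧ B x x x ≠ 0

/-- the linear factor `l` of `F = u ^ 2 l`. -/
def ell (B : H →+ H →+ H →+ ℤ) (co : Coord v) (x : H) : ℤ :=
  B co.z co.z co.z * co.u x + 3 * B co.z co.z co.w * co.y x

theorem key (h23 : ∀ x y z, B x y z = B x z y) (h12 : ∀ x y z, B x y z = B y x z)
    (co : Coord v) (hs : ∀ x, B v v x = 0) {lam : H →+ ℤ} {E : H} (h : Sol B lam E) :
    ∃ r : ℤ, r ≠ 0 ∧ (∀ x, 2 * ell B co x = r * (co.u x - 3 * co.u E * lam x)) ∧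
      (co.u E = 0 ↔ B co.z co.z co.w = 0) ∧
      (∃ x, ell B co x = r) ∧ lam co.z * co.u E + lam co.w * co.y E = 1 ∧ lam co.w ≠ 0 ∧
      B (-(lam co.w) • co.z + lam co.z • co.w) (-(lam co.w) • co.z + lam co.z • co.w)
        (-(lam co.w) • co.z + lam co.z • co.w) ≠ 0 := by
  obtain ⟨hE, hp, x, hx, hne⟩ := h
  set α := B co.z co.z co.z with hα
  set β := B co.z co.z co.w with hβ
  set p := lam co.z with hpdef
  set q := lam co.w with hqdef
  set E1 := co.u E with hE1
  set E2 := co.y E with hE2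
  have hpq : p * E1 + q * E2 = 1 := by
    have := lin co lam E
    rw [hE] at this
    linarith
  set a : H := -q • co.z + p • co.w with ha
  have hua : co.u a = -q := by
    rw [ha, map_add, map_zsmul, map_zsmul, co.uz, co.uw]; simp
  have hya : co.y a = p := by
    rw [ha, map_add, map_zsmul, map_zsmul, co.yz, co.yw]; simp
  have hla : lam a = 0 := by
    rw [lin co lam a, hua, hya]; ring
  have hx' : co.u x * p + co.y x * q = 0 := by rw [← lin co lam x]; exact hx
  set n := co.y x * E1 - co.u x * E2 with hn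
  have hux : co.u x = -q * n := by
    linear_combination (-(co.u x)) * hpq + E1 * hx'
  have hyx : co.y x = p * n := by
    linear_combination (-(co.y x)) * hpq + E2 * hx'
  have hFx : B x x x = n ^ 3 * (q ^ 2 * (3 * β * p - α * q)) := by
    rw [expand h23 h12 co hs, hux, hyx]; ring
  have hFa : B a a a = q ^ 2 * (3 * β * p - α * q) := by
    rw [expand h23 h12 co hs, hua, hya]; ring
  rw [hFx] at hne
  have hqs := right_ne_zero_of_mul hne
  have hq : q ≠ 0 := by
    intro h0; apply hqs; rw [h0]; ring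
  set s := 3 * β * p - α * q with hsdef
  have hs0 : s ≠ 0 := right_ne_zero_of_mul hqs
  have hperp := hp a a hla hla
  rw [expand h23 h12 co hs, hua, hya] at hperp
  have hbeta : β = E1 * s := by
    have h1 : q * (α * q * E1 + β * (q * E2 - 2 * p * E1)) = 0 := by
      linear_combination hperp
    have h2 := (mul_eq_zero.1 h1).resolve_left hq
    rw [hsdef]
    linear_combination (-β) * hpq + h2
  set lE := α * E1 + 3 * β * E2 with hlE
  have hqlE : q * lE = 2 * s * E1 := by
    rw [hlE]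
    linear_combination (3 * β) * hpq + 3 * hbeta + E1 * hsdef
  set r := -p * lE - 2 * s * E2 with hr
  have h2s : 2 * s = -q * r := by
    rw [hr]
    linear_combination (-2 * s) * hpq - p * hqlE
  have hlEr : lE = -r * E1 := by
    apply mul_left_cancel₀ hq
    linear_combination hqlE + E1 * h2s
  have hr0 : r ≠ 0 := by
    intro h0
    rw [h0, mul_zero] at h2s
    exact hs0 (by linarith)
  have h6b : 6 * β = -3 * r * E1 * q := by
    linear_combination 6 * hbeta + 3 * E1 * h2s
  have h2a : 2 * α = r - 3 * r * E1 * p := by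
    apply mul_left_cancel₀ hq
    linear_combination (-1 : ℤ) * h2s + 2 * hsdef + p * h6b
  refine ⟨r, hr0, ?_, ?_, ?_, hpq, hq, ?_⟩
  · intro x
    have h1 := lin co lam x
    rw [ell, h1]
    linear_combination (co.u x) * h2a + (co.y x) * h6b
  · constructor
    · intro h0; rw [hbeta, h0, zero_mul]
    · intro h0
      rw [h0] at hbeta
      exact (mul_eq_zero.1 hbeta.symm).resolve_right hs0
  · refine ⟨-p • E - (2 * E2) • a, ?_⟩
    have h1 : ell B co (-p • E - (2 * E2) • a) = -p * lE - 2 * E2 * s := by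
      simp only [ell, map_sub, map_zsmul, smul_eq_mul, hua, hya]
      rw [hlE, hsdef]; ring
    rw [h1, hr]; ring
  · rw [hFa]; exact hqs

/-- the possible values of `r`. -/
theorem rabs (co : Coord v) {lam : H →+ ℤ} {E : H} {r : ℤ} (hr : r ≠ 0)
    (h1 : ∀ x, 2 * ell B co x = r * (co.u x - 3 * co.u E * lam x))
    (h2 : ∃ x, ell B co x = r) :
    r.natAbs = Int.gcd (B co.z co.z co.z) (3 * B co.z co.z co.w) ∨
      r.natAbs = 2 * Int.gcd (B co.z co.z co.z) (3 * B co.z co.z co.w) := by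
  set α := B co.z co.z co.z with hα
  set β := B co.z co.z co.w with hβ
  have ez : ell B co co.z = α := by rw [ell, co.uz, co.yz]; ring
  have ew : ell B co co.w = 3 * β := by rw [ell, co.uw, co.yw]; ring
  have d1 : r ∣ 2 * α := by rw [← ez, h1]; exact dvd_mul_right _ _
  have d2 : r ∣ 2 * (3 * β) := by rw [← ew, h1]; exact dvd_mul_right _ _
  have d3 : r.natAbs ∣ 2 * Int.gcd α (3 * β) := by
    have h3 : r.natAbs ∣ Int.gcd (2 * α) (2 * (3 * β)) :=
      Nat.dvd_gcd (Int.natAbs_dvd_natAbs.2 d1) (Int.natAbs_dvd_natAbs.2 d2)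
    rw [Int.gcd_mul_left] at h3
    exact h3
  have d4 : Int.gcd α (3 * β) ∣ r.natAbs := by
    obtain ⟨x, hx⟩ := h2
    rw [← Int.natCast_dvd, ← hx, ell]
    exact dvd_add ((Int.gcd_dvd_left _ _).mul_right _) ((Int.gcd_dvd_right _ _).mul_right _)
  obtain ⟨j, hj⟩ := d4
  have hm : Int.gcd α (3 * β) ≠ 0 := by
    intro h0
    rw [h0, zero_mul] at hj
    exact hr (Int.natAbs_eq_zero.1 hj)
  rw [hj, mul_comm 2] at d3
  have hj2 : j ∣ 2 := Nat.dvd_of_mul_dvd_mul_left (Nat.pos_of_ne_zero hm) d3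
  rcases (Nat.dvd_prime Nat.prime_two).1 hj2 with h | h
  · left; rw [hj, h, mul_one]
  · right; rw [hj, h, mul_comm]

/-- the sign of `r` is determined. -/
theorem rsign (co : Coord v) {lam lam' : H →+ ℤ} {E E' : H} {r r' : ℤ} (hr : r ≠ 0)
    (h1 : ∀ x, 2 * ell B co x = r * (co.u x - 3 * co.u E * lam x))
    (h1' : ∀ x, 2 * ell B co x = r' * (co.u x - 3 * co.u E' * lam' x))
    (h : r.natAbs = r'.natAbs) : r = r' := by
  rcases Int.natAbs_eq_natAbs_iff.1 h with h | h
  · exact h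
  · exfalso
    have h2 := h1 co.z
    have h3 := h1' co.z
    rw [co.uz] at h2 h3
    have h4 : r' = -r := by rw [h]; ring
    rw [h4] at h3
    have h5 : r * (2 - 3 * (co.u E * lam co.z + co.u E' * lam' co.z)) = 0 := by
      linear_combination h3 - h2
    have h6 := (mul_eq_zero.1 h5).resolve_left hr
    omega

section Blow

variable {A A' : Type*} [AddCommGroup A] [AddCommGroup A']

/-- the second coordinate. -/
def lamOf (φ : (A × ℤ) ≃+ H) : H →+ ℤ := (AddMonoidHom.snd A ℤ).comp φ.symm.toAddMonoidHom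

theorem lamOf_apply (φ : (A × ℤ) ≃+ H) (x : H) : lamOf φ x = (φ.symm x).2 := rfl

theorem blow_zero {F0 : A → ℤ} {C : A →+ ℤ} {e : ℤ} (φ : (A × ℤ) ≃+ H)
    (hφ : ∀ a t, B (φ (a, t)) (φ (a, t)) (φ (a, t)) = F0 a - 3 * t ^ 2 * C a + e * t ^ 3) :
    F0 0 = 0 := by
  have h1 := hφ 0 0
  have h2 : φ ((0 : A), (0 : ℤ)) = 0 := map_zero φ
  rw [h2, map_zero] at h1
  simpa using h1.symm

theorem blow_perp (h12 : ∀ x y z, B x y z = B y x z) (h23 : ∀ x y z, B x y z = B x z y)
    {F0 : A → ℤ} {C : A →+ ℤ} {e : ℤ} (φ : (A × ℤ) ≃+ H)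
    (hφ : ∀ a t, B (φ (a, t)) (φ (a, t)) (φ (a, t)) = F0 a - 3 * t ^ 2 * C a + e * t ^ 3)
    (a a' : A) : B (φ (a, 0)) (φ (a', 0)) (φ (0, 1)) = 0 := by
  have h0 := blow_zero φ hφ
  have h6 := polar (F := fun x => B x x x) h12 h23 (fun x => rfl) (φ (a, 0)) (φ (a', 0))
    (φ (0, 1))
  simp only [← map_add, Prod.mk_add_mk, hφ, add_zero, zero_add, h0] at h6
  rw [map_add, map_zero] at h6
  linarith

theorem blow_C (h12 : ∀ x y z, B x y z = B y x z) (h23 : ∀ x y z, B x y z = B x z y)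
    {F0 : A → ℤ} {C : A →+ ℤ} {e : ℤ} (φ : (A × ℤ) ≃+ H)
    (hφ : ∀ a t, B (φ (a, t)) (φ (a, t)) (φ (a, t)) = F0 a - 3 * t ^ 2 * C a + e * t ^ 3)
    (a : A) : B (φ (a, 0)) (φ (0, 1)) (φ (0, 1)) = - C a := by
  have h0 := blow_zero φ hφ
  have h6 := polar (F := fun x => B x x x) h12 h23 (fun x => rfl) (φ (a, 0)) (φ (0, 1))
    (φ (0, 1))
  simp only [← map_add, Prod.mk_add_mk, hφ, add_zero, zero_add, map_zero, h0] at h6
  linarith

theorem sol_of_blow (h12 : ∀ x y z, B x y z = B y x z) (h23 : ∀ x y z, B x y z = B x z y)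
    {F0 : A → ℤ} {C : A →+ ℤ} {e : ℤ} (φ : (A × ℤ) ≃+ H)
    (hφ : ∀ a t, B (φ (a, t)) (φ (a, t)) (φ (a, t)) = F0 a - 3 * t ^ 2 * C a + e * t ^ 3)
    (hF : ∃ a, F0 a ≠ 0) : Sol B (lamOf φ) (φ (0, 1)) where
  lamE := by rw [lamOf_apply, AddEquiv.symm_apply_apply]
  perp := by
    intro x y hx hy
    obtain ⟨⟨a, t⟩, rfl⟩ := φ.surjective x
    obtain ⟨⟨a', t'⟩, rfl⟩ := φ.surjective y
    rw [lamOf_apply, AddEquiv.symm_apply_apply] at hx hy
    simp only at hx hy
    subst hx hy
    exact blow_perp h12 h23 φ hφ a a'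
  ne := by
    obtain ⟨a, ha⟩ := hF
    refine ⟨φ (a, 0), ?_, ?_⟩
    · rw [lamOf_apply, AddEquiv.symm_apply_apply]
    · rw [hφ]; simpa using ha

/-- the isomorphism by projection along the exceptional class. -/
theorem tiso_of {F0 p0 : A → ℤ} {F0' p0' : A' → ℤ} (φ : (A × ℤ) ≃+ H) (φ' : (A' × ℤ) ≃+ H)
    (hσ : lamOf φ (φ' (0, 1)) * lamOf φ (φ' (0, 1)) = 1)
    (hyp : ∀ a b n, φ (a, 0) = φ' (b, n) → F0' b = F0 a ∧ p0' b = p0 a) :
    TIso F0 p0 F0' p0' := by
  set σ := lamOf φ (φ' (0, 1)) with hσdef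
  let f : A →+ A' := ((AddMonoidHom.fst A' ℤ).comp φ'.symm.toAddMonoidHom).comp
    (φ.toAddMonoidHom.comp (AddMonoidHom.inl A ℤ))
  have hf : ∀ a, φ (a, 0) = φ' (f a, (φ'.symm (φ (a, 0))).2) := by
    intro a
    have h1 : f a = (φ'.symm (φ (a, 0))).1 := rfl
    rw [h1, Prod.mk.eta, AddEquiv.apply_symm_apply]
  have hn : ∀ n : ℤ, φ' ((0 : A'), n) = n • φ' (0, 1) := by
    intro n
    rw [← map_zsmul]
    congr 1
    ext
    · simp
    · simp
  have hlam : ∀ a, lamOf φ (φ (a, 0)) = 0 := by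
    intro a; rw [lamOf_apply, AddEquiv.symm_apply_apply]
  have hinj : Function.Injective f := by
    rw [injective_iff_map_eq_zero]
    intro a ha
    have h1 := hf a
    rw [ha, hn] at h1
    have h2 := congrArg (lamOf φ) h1
    rw [hlam, map_zsmul, smul_eq_mul, ← hσdef] at h2
    have hσ0 : σ ≠ 0 := by
      intro h0; rw [h0] at hσ; norm_num at hσ
    have h3 := (mul_eq_zero.1 h2.symm).resolve_right hσ0
    rw [h3, zero_smul] at h1
    have h4 : (a, (0 : ℤ)) = 0 := by
      apply φ.injective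
      rw [h1, map_zero]
    exact congrArg Prod.fst h4
  have hsurj : Function.Surjective f := by
    intro b
    set n := -(σ * lamOf φ (φ' (b, 0))) with hndef
    have h1 : lamOf φ (φ' (b, n)) = 0 := by
      have h2 : φ' (b, n) = φ' (b, 0) + n • φ' (0, 1) := by
        rw [← hn, ← map_add]; simp
      rw [h2, map_add, map_zsmul, smul_eq_mul, ← hσdef, hndef]
      linear_combination (-(lamOf φ (φ' (b, 0)))) * hσ
    refine ⟨(φ.symm (φ' (b, n))).1, ?_⟩
    have h3 : φ ((φ.symm (φ' (b, n))).1, 0) = φ' (b, n) := by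
      rw [lamOf_apply] at h1
      rw [← h1, Prod.mk.eta, AddEquiv.apply_symm_apply]
    show (φ'.symm (φ ((φ.symm (φ' (b, n))).1, 0))).1 = b
    rw [h3, AddEquiv.symm_apply_apply]
  refine ⟨AddEquiv.ofBijective f ⟨hinj, hsurj⟩, fun a => ?_, fun a => ?_⟩
  · exact (hyp a (f a) _ (hf a)).1
  · exact (hyp a (f a) _ (hf a)).2

/-- if the kernels agree, so do the classes of the centres. -/
theorem C_eq (h12 : ∀ x y z, B x y z = B y x z) (h23 : ∀ x y z, B x y z = B x z y)
    (co : Coord v) (hs : ∀ x, B v v x = 0) {lam lam' : H →+ ℤ} {E E' : H} (h : Sol B lam E)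
    (h' : Sol B lam' E') (hK : ∀ x, lam x = 0 ↔ lam' x = 0) :
    lam E' * lam E' = 1 ∧ ∀ x, lam x = 0 → B x E' E' = B x E E := by
  -- `lam E'` is a unit
  have hsub : lam (E - lam' E • E') = 0 := by
    rw [hK, map_sub, map_zsmul, h'.lamE]; simp
  have hsub' : lam' (E' - lam E' • E) = 0 := by
    rw [← hK, map_sub, map_zsmul, h.lamE]; simp
  have hu : lam' E * lam E' = 1 := by
    rw [map_sub, map_zsmul, h.lamE, smul_eq_mul] at hsub
    linarith
  have hσ : lam E' * lam E' = 1 := by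
    rcases Int.isUnit_iff.1 (IsUnit.of_mul_eq_one (lam' E) (by rw [mul_comm]; exact hu) :
      IsUnit (lam E')) with h1 | h1 <;> rw [h1] <;> norm_num
  refine ⟨hσ, ?_⟩
  set σ := lam E' with hσdef
  set k := E' - σ • E with hk
  have hlk : lam k = 0 := (hK k).2 hsub'
  have hE' : E' = σ • E + k := by rw [hk]; abel
  have hkz : ∀ x y, lam x = 0 → lam y = 0 → B k x y = 0 := by
    intro x y hx hy
    have h1 : B E' x y = 0 := by
      rw [h12, h23]; exact h'.perp x y ((hK x).1 hx) ((hK y).1 hy)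
    have h2 : B E x y = 0 := by
      rw [h12, h23]; exact h.perp x y hx hy
    rw [hk, map_sub, map_zsmul]
    simp [h1, h2]
  -- `k` is torsion
  obtain ⟨r, hr, -, -, -, hpq, hq, hFa⟩ := key h23 h12 co hs h
  set p := lam co.z with hp
  set q := lam co.w with hqdef
  have hk' : co.u k * p + co.y k * q = 0 := by rw [← lin co lam k]; exact hlk
  set n := co.y k * co.u E - co.u k * co.y E with hn
  have huk : co.u k = -q * n := by
    linear_combination (-(co.u k)) * hpq + co.u E * hk'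
  have hyk : co.y k = p * n := by
    linear_combination (-(co.y k)) * hpq + co.y E * hk'
  have hFk := hkz k k hlk hlk
  rw [expand h23 h12 co hs] at hFk hFa
  simp only [map_add, map_zsmul, co.uz, co.uw, co.yz, co.yw, smul_eq_mul, mul_zero, mul_one,
    add_zero, zero_add] at hFa
  have hn0 : n = 0 := by
    rw [huk, hyk] at hFk
    by_contra hne
    apply hFa
    have h3 : n ^ 3 ≠ 0 := pow_ne_zero 3 hne
    apply mul_left_cancel₀ h3
    linear_combination hFk
  have huk0 : co.u k = 0 := by rw [huk, hn0, mul_zero]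
  have hyk0 : co.y k = 0 := by rw [hyk, hn0, mul_zero]
  have hB0 : ∀ x y, B x y k = 0 := by
    intro x y
    rw [lin co (B x y) k, huk0, hyk0]; ring
  intro x _
  have hB1 : ∀ y, B x k y = 0 := by intro y; rw [h23]; exact hB0 x y
  have hB2 : ∀ y, B x (σ • E) y = σ * B x E y := by
    intro y; rw [map_zsmul, AddMonoidHom.smul_apply, smul_eq_mul]
  rw [hE', map_add, map_add, AddMonoidHom.add_apply, AddMonoidHom.add_apply, hB0, hB1, hB1,
    add_zero, add_zero, add_zero, hB2, map_zsmul, smul_eq_mul, ← mul_assoc, hσ, one_mul]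

/-- the isomorphism in the case of equal `r`. -/
theorem iso_case (h12 : ∀ x y z, B x y z = B y x z) (h23 : ∀ x y z, B x y z = B x z y)
    (co : Coord v) (hs : ∀ x, B v v x = 0) {F0 : A → ℤ} {C : A →+ ℤ} {e : ℤ}
    {F0' : A' → ℤ} {C' : A' →+ ℤ} {e' : ℤ} {p : H → ℤ} {p0 : A → ℤ} {p0' : A' → ℤ}
    (φ : (A × ℤ) ≃+ H)
    (hφ : ∀ a t, B (φ (a, t)) (φ (a, t)) (φ (a, t)) = F0 a - 3 * t ^ 2 * C a + e * t ^ 3)
    (hp : ∀ a t, p (φ (a, t)) = p0 a - 3 * C a + e * t) (hF : ∃ a, F0 a ≠ 0)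
    (φ' : (A' × ℤ) ≃+ H)
    (hφ' : ∀ a t, B (φ' (a, t)) (φ' (a, t)) (φ' (a, t)) =
      F0' a - 3 * t ^ 2 * C' a + e' * t ^ 3)
    (hp' : ∀ a t, p (φ' (a, t)) = p0' a - 3 * C' a + e' * t) (hF' : ∃ a, F0' a ≠ 0)
    {r : ℤ} (hr : r ≠ 0)
    (h1 : ∀ x, 2 * ell B co x = r * (co.u x - 3 * co.u (φ (0, 1)) * lamOf φ x))
    (h1' : ∀ x, 2 * ell B co x = r * (co.u x - 3 * co.u (φ' (0, 1)) * lamOf φ' x)) :
    TIso F0 p0 F0' p0' := by
  have hS := sol_of_blow h12 h23 φ hφ hF
  have hS' := sol_of_blow h12 h23 φ' hφ' hF'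
  obtain ⟨-, -, -, hb, -, hpq, -, -⟩ := key h23 h12 co hs hS
  obtain ⟨-, -, -, hb', -, hpq', -, -⟩ := key h23 h12 co hs hS'
  by_cases hβ : B co.z co.z co.w = 0
  · -- a triple root
    have hE : co.u (φ (0, 1)) = 0 := hb.2 hβ
    have hE' : co.u (φ' (0, 1)) = 0 := hb'.2 hβ
    have hB0 : ∀ x y, B x y (φ (0, 1)) = 0 := by
      intro x y; rw [expand h23 h12 co hs, hE, hβ]; ring
    have hB0' : ∀ x y, B x y (φ' (0, 1)) = 0 := by
      intro x y; rw [expand h23 h12 co hs, hE', hβ]; ring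
    have hC : ∀ a, C a = 0 := by
      intro a
      have := blow_C h12 h23 φ hφ a
      rw [hB0] at this; linarith
    have hC' : ∀ a, C' a = 0 := by
      intro a
      have := blow_C h12 h23 φ' hφ' a
      rw [hB0'] at this; linarith
    have he : e = 0 := by
      have h3 := hφ 0 1
      rw [hB0, blow_zero φ hφ, map_zero] at h3
      linarith
    have he' : e' = 0 := by
      have h3 := hφ' 0 1
      rw [hB0', blow_zero φ' hφ', map_zero] at h3
      linarith
    apply tiso_of φ φ'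
    · rw [hE, mul_zero, zero_add] at hpq
      rw [hE', mul_zero, zero_add] at hpq'
      have h3 : lamOf φ (φ' (0, 1)) = lamOf φ co.w * co.y (φ' (0, 1)) := by
        rw [lin co (lamOf φ) (φ' (0, 1)), hE']; ring
      rw [h3]
      have s1 : lamOf φ co.w * lamOf φ co.w = 1 := by
        rcases Int.isUnit_iff.1 (IsUnit.of_mul_eq_one _ hpq) with h4 | h4 <;>
          rw [h4] <;> norm_num
      have s2 : co.y (φ' (0, 1)) * co.y (φ' (0, 1)) = 1 := by
        rw [mul_comm] at hpq'
        rcases Int.isUnit_iff.1 (IsUnit.of_mul_eq_one _ hpq') with h4 | h4 <;>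
          rw [h4] <;> norm_num
      calc lamOf φ co.w * co.y (φ' (0, 1)) * (lamOf φ co.w * co.y (φ' (0, 1)))
          = (lamOf φ co.w * lamOf φ co.w) * (co.y (φ' (0, 1)) * co.y (φ' (0, 1))) := by ring
        _ = 1 := by rw [s1, s2]; ring
    · intro a b n hab
      constructor
      · have h3 := hφ a 0
        have h4 := hφ' b n
        rw [← hab, h3, hC', he'] at h4
        simpa using h4.symm
      · have h3 := hp a 0
        have h4 := hp' b n
        rw [← hab, h3, hC', hC, he', he] at h4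
        simpa using h4.symm
  · -- the kernels agree
    have hE : co.u (φ (0, 1)) ≠ 0 := fun h => hβ (hb.1 h)
    have hE' : co.u (φ' (0, 1)) ≠ 0 := fun h => hβ (hb'.1 h)
    have hK : ∀ x, lamOf φ x = 0 ↔ lamOf φ' x = 0 := by
      intro x
      have h3 : co.u (φ (0, 1)) * lamOf φ x = co.u (φ' (0, 1)) * lamOf φ' x := by
        apply mul_left_cancel₀ hr
        have := (h1 x).symm.trans (h1' x)
        linarith
      constructor
      · intro h4
        rw [h4, mul_zero] at h3
        exact (mul_eq_zero.1 h3.symm).resolve_left hE'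
      · intro h4
        rw [h4, mul_zero] at h3
        exact (mul_eq_zero.1 h3).resolve_left hE
    obtain ⟨hσ, hC⟩ := C_eq h12 h23 co hs hS hS' hK
    apply tiso_of φ φ' hσ
    intro a b n hab
    have hn : n = 0 := by
      have h3 : lamOf φ' (φ (a, 0)) = 0 := by
        rw [← hK, lamOf_apply, AddEquiv.symm_apply_apply]
      rw [hab, lamOf_apply, AddEquiv.symm_apply_apply] at h3
      exact h3
    subst hn
    have hCab : C' b = C a := by
      have h3 := hC (φ (a, 0)) (by rw [lamOf_apply, AddEquiv.symm_apply_apply])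
      rw [blow_C h12 h23 φ hφ, hab, blow_C h12 h23 φ' hφ'] at h3
      linarith
    constructor
    · have h3 := hφ a 0
      have h4 := hφ' b 0
      rw [← hab, h3] at h4
      simpa using h4.symm
    · have h3 := hp a 0
      have h4 := hp' b 0
      rw [← hab, h3, hCab] at h4
      linarith

end Blow

/-- **Rank two, discriminant zero.**  Up to isomorphism at most two triples `(A, F0, p0)`,
`F0` nonzero, have a given triple of rank two and discriminant zero as blow-up in a curve. -/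
theorem curve_two [Module.Finite ℤ H] (hr : finrank ℤ H = 2)
    (h12 : ∀ x y z, B x y z = B y x z) (h23 : ∀ x y z, B x y z = B x z y)
    (hv : ∀ n : ℤ, n • v = 0 → n = 0) (hs : ∀ x, B v v x = 0) (p : H → ℤ)
    {ι : Type*} (A : ι → Type*) [∀ i, AddCommGroup (A i)] (F0 p0 : ∀ i, A i → ℤ)
    (hF : ∀ i, ∃ a, F0 i a ≠ 0)
    (hb : ∀ i, ∃ (C : A i →+ ℤ) (e : ℤ), CurveBlowUp (F0 i) (p0 i) C e (fun x => B x x x) p)
    (hne : ∀ i j, i ≠ j → ¬ TIso (F0 i) (p0 i) (F0 j) (p0 j)) :
    Finite ι ∧ Nat.card ι ≤ 2 := by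
  classical
  obtain ⟨co⟩ := exists_coord hr v hv
  choose C e φ hφ using hb
  have hS := fun i => sol_of_blow h12 h23 (φ i) (fun a t => (hφ i a t).1) (hF i)
  choose r hr0 h1 h2 h3 h4 h5 using fun i => key h23 h12 co hs (hS i)
  let g : ι → Bool := fun i =>
    decide ((r i).natAbs = Int.gcd (B co.z co.z co.z) (3 * B co.z co.z co.w))
  have hg : Function.Injective g := by
    intro i j hij
    by_contra hne'
    apply hne i j hne'
    have ha : (r i).natAbs = (r j).natAbs := by
      have hi := rabs co (hr0 i) (h1 i) (h3 i)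
      have hj := rabs co (hr0 j) (h1 j) (h3 j)
      simp only [g, decide_eq_decide] at hij
      by_cases hc : (r i).natAbs = Int.gcd (B co.z co.z co.z) (3 * B co.z co.z co.w)
      · rw [hc, hij.1 hc]
      · rw [hi.resolve_left hc, hj.resolve_left (fun h => hc (hij.2 h))]
    have hrr : r i = r j := rsign co (hr0 i) (h1 i) (h1 j) ha
    refine iso_case h12 h23 co hs (φ i) (fun a t => (hφ i a t).1) (fun a t => (hφ i a t).2)
      (hF i) (φ j) (fun a t => (hφ j a t).1) (fun a t => (hφ j a t).2) (hF j) (hr0 i) (h1 i) ?_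
    rw [hrr]; exact h1 j
  have hfin : Finite ι := Finite.of_injective g hg
  refine ⟨hfin, ?_⟩
  have := Nat.card_le_card_of_injective g hg
  simpa using this

end Pool.Agent.MP77.H93
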