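import Mathlib
import Pool.Agent.Lib.MP_77ebfb_ag.H93.RankTwo

/-!
# Rank two, nonzero discriminant: finitely many classes downstairs of a curve blow-up
-/

namespace Pool.Agent.MP77.H93

open Module Pool.Agent.MP77.H10

variable {H : Type*} [AddCommGroup H] {B : H →+ H →+ H →+ ℤ} {v : H}

/-- the generator of the kernel of `lam` modulo torsion. -/
def gen (co : Coord v) (lam : H →+ ℤ) : H := -(lam co.w) • co.z + lam co.z • co.w

/-- the first coordinate with respect to `gen, E`. -/
def fst' (co : Coord v) (E x : H) : ℤ := co.y x * co.u E - co.u x * co.y E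

theorem u_gen (co : Coord v) (lam : H →+ ℤ) : co.u (gen co lam) = -(lam co.w) := by
  rw [gen, map_add, map_zsmul, map_zsmul, co.uz, co.uw]; simp

theorem y_gen (co : Coord v) (lam : H →+ ℤ) : co.y (gen co lam) = lam co.z := by
  rw [gen, map_add, map_zsmul, map_zsmul, co.yz, co.yw]; simp

theorem pq (co : Coord v) {lam : H →+ ℤ} {E : H} (hE : lam E = 1) :
    lam co.z * co.u E + lam co.w * co.y E = 1 := by
  have := lin co lam E
  rw [hE] at this
  linarith

theorem lin2 (co : Coord v) {lam : H →+ ℤ} {E : H} (hE : lam E = 1) (f : H →+ ℤ) (x : H) :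
    f x = fst' co E x * f (gen co lam) + lam x * f E := by
  have h1 := pq co hE
  rw [lin co f x, lin co f (gen co lam), lin co f E, lin co lam x, u_gen, y_gen, fst']
  linear_combination (-(co.u x * f co.z + co.y x * f co.w)) * h1

theorem lam_gen (co : Coord v) (lam : H →+ ℤ) : lam (gen co lam) = 0 := by
  rw [gen, map_add, map_zsmul, map_zsmul]; simp; ring

theorem cubic2 (h12 : ∀ x y z, B x y z = B y x z) (h23 : ∀ x y z, B x y z = B x z y)
    (co : Coord v) {lam : H →+ ℤ} {E : H} (h : Sol B lam E) (x y z : H) :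
    B x y z = B (gen co lam) (gen co lam) (gen co lam) *
        (fst' co E x * fst' co E y * fst' co E z)
      + B (gen co lam) E E * (fst' co E x * lam y * lam z + lam x * fst' co E y * lam z
        + lam x * lam y * fst' co E z) + B E E E * (lam x * lam y * lam z) := by
  set a := gen co lam with ha
  have haaE : B a a E = 0 := h.perp a a (lam_gen co lam) (lam_gen co lam)
  have l2 := fun (f : H →+ ℤ) (x : H) => lin2 co h.lamE f x
  simp only [← ha] at l2
  have haEa : B a E a = 0 := by rw [h23]; exact haaE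
  have hEaa : B E a a = 0 := by rw [h12]; exact haEa
  have hEaE : B E a E = B a E E := by rw [h12]
  have hEEa : B E E a = B a E E := by rw [h23, hEaE]
  have e1 : ∀ y z, B a y z = fst' co E y * fst' co E z * B a a a + lam y * lam z * B a E E := by
    intro y z
    rw [l2 (B a y) z, h23 a y a, l2 (B a a) y, h23 a y E, l2 (B a E) y, haaE, haEa]
    ring
  have e2 : ∀ y z, B E y z = (fst' co E y * lam z + lam y * fst' co E z) * B a E E
      + lam y * lam z * B E E E := by
    intro y z
    rw [l2 (B E y) z, h23 E y a, l2 (B E a) y, h23 E y E, l2 (B E E) y, hEaa, hEaE, hEEa]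
    ring
  have e3 : B x y z = fst' co E x * B a y z + lam x * B E y z := by
    rw [h12 x y z, h23 y x z, l2 (B y z) x, h23 y z a, h12 y a z, h23 y z E, h12 y E z]
  rw [e3, e1, e2]
  ring

/-- the discriminant (up to a factor `27`). -/
def disc (B : H →+ H →+ H →+ ℤ) (co : Coord v) : ℤ :=
  -((B co.z co.z co.z) ^ 2 * (B co.w co.w co.w) ^ 2
    - 6 * (B co.z co.z co.z) * (B co.z co.z co.w) * (B co.z co.w co.w) * (B co.w co.w co.w)
    + 4 * (B co.z co.z co.z) * (B co.z co.w co.w) ^ 3
    + 4 * (B co.z co.z co.w) ^ 3 * (B co.w co.w co.w)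
    - 3 * (B co.z co.z co.w) ^ 2 * (B co.z co.w co.w) ^ 2)

theorem fst'_z (co : Coord v) (E : H) : fst' co E co.z = -(co.y E) := by
  rw [fst', co.uz, co.yz]; ring

theorem fst'_w (co : Coord v) (E : H) : fst' co E co.w = co.u E := by
  rw [fst', co.uw, co.yw]; ring

theorem disc_eq (h12 : ∀ x y z, B x y z = B y x z) (h23 : ∀ x y z, B x y z = B x z y)
    (co : Coord v) {lam : H →+ ℤ} {E : H} (h : Sol B lam E) :
    disc B co = B (gen co lam) (gen co lam) (gen co lam) *
      (-4 * (B (gen co lam) E E) ^ 3 - B (gen co lam) (gen co lam) (gen co lam)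
        * (B E E E) ^ 2) := by
  have h1 := pq co h.lamE
  rw [disc, cubic2 h12 h23 co h co.z co.z co.z, cubic2 h12 h23 co h co.z co.z co.w,
    cubic2 h12 h23 co h co.z co.w co.w, cubic2 h12 h23 co h co.w co.w co.w, fst'_z, fst'_w]
  set A := B (gen co lam) (gen co lam) (gen co lam)
  set c := B (gen co lam) E E
  set e := B E E E
  set p := lam co.z
  set q := lam co.w
  set E1 := co.u E
  set E2 := co.y E
  have h6 : (p * E1 + q * E2) ^ 6 = 1 := by rw [h1]; norm_num
  have h7 : A * (-4 * c ^ 3 - A * e ^ 2) =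
      (p * E1 + q * E2) ^ 6 * (A * (-4 * c ^ 3 - A * e ^ 2)) := by rw [h6, one_mul]
  rw [h7]
  ring

/-- the vector orthogonal to `pp`. -/
def perpVec (co : Coord v) (pp : H →+ ℤ) : H := (pp co.w) • co.z - (pp co.z) • co.w

theorem perp_eq (h12 : ∀ x y z, B x y z = B y x z) (h23 : ∀ x y z, B x y z = B x z y)
    (co : Coord v) {lam : H →+ ℤ} {E : H} (h : Sol B lam E) (pp : H →+ ℤ)
    (hp : pp E = B E E E) :
    B (perpVec co pp) (perpVec co pp) (perpVec co pp) =
      B E E E * ((pp (gen co lam)) ^ 3 - 3 * B (gen co lam) E E * (pp (gen co lam)) ^ 2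
        - B (gen co lam) (gen co lam) (gen co lam) * (B E E E) ^ 2) := by
  have hu : co.u (perpVec co pp) = pp co.w := by
    rw [perpVec, map_sub, map_zsmul, map_zsmul, co.uz, co.uw]; simp
  have hy : co.y (perpVec co pp) = -(pp co.z) := by
    rw [perpVec, map_sub, map_zsmul, map_zsmul, co.yz, co.yw]; simp
  have hf : fst' co E (perpVec co pp) = -(B E E E) := by
    rw [fst', hu, hy, ← hp, lin co pp E]; ring
  have hl : lam (perpVec co pp) = pp (gen co lam) := by
    rw [lin co lam (perpVec co pp), hu, hy, lin co pp (gen co lam), u_gen, y_gen]; ring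
  rw [cubic2 h12 h23 co h, hf, hl]
  ring

theorem le_of_dvd' {a b : ℤ} (h : a ∣ b) (hb : b ≠ 0) : |a| ≤ |b| :=
  Int.le_of_dvd (abs_pos.2 hb) ((abs_dvd_abs _ _).2 h)

theorem le_cube (c : ℤ) : |c| ≤ |c ^ 3| := by
  by_cases h : c = 0
  · rw [h]; norm_num
  · exact le_of_dvd' (dvd_pow_self c (by norm_num)) (pow_ne_zero 3 h)

/-- the data are bounded. -/
theorem box (D I P : ℤ) (hD : D ≠ 0) : ∃ N : ℤ, ∀ A c e Q : ℤ,
    D = A * (-4 * c ^ 3 - A * e ^ 2) → I = e * (Q ^ 3 - 3 * c * Q ^ 2 - A * e ^ 2) →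
    (e = 0 → |Q| ≤ P) → |A| ≤ N ∧ |c| ≤ N ∧ |Q| ≤ N := by
  refine ⟨4 * (|D| + D ^ 2 * I ^ 2) + |I| + |D| * |I| ^ 3 + |P|, ?_⟩
  intro A c e Q h1 h2 h3
  have hA0 : A ≠ 0 := by rintro rfl; apply hD; rw [h1]; ring
  have hA : |A| ≤ |D| := le_of_dvd' ⟨_, h1⟩ hD
  have n1 : 0 ≤ D ^ 2 * I ^ 2 := by positivity
  have n2 : 0 ≤ |I| := abs_nonneg _
  have n3 : 0 ≤ |D| * |I| ^ 3 := by positivity
  have n4 : 0 ≤ |P| := abs_nonneg _
  have n5 : 0 ≤ |D| := abs_nonneg _
  by_cases he : e = 0
  · have hc : |c| ≤ |D| := by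
      refine le_of_dvd' ⟨-4 * A * c ^ 2, ?_⟩ hD
      rw [h1, he]; ring
    have hQ := h3 he
    have hP : P ≤ |P| := le_abs_self P
    refine ⟨by linarith, by linarith, by linarith⟩
  · by_cases hI : I = 0
    · have h4 : Q ^ 3 - 3 * c * Q ^ 2 - A * e ^ 2 = 0 := by
        rw [hI] at h2
        exact (mul_eq_zero.1 h2.symm).resolve_left he
      have h5 : D = A * (-c - Q) * (-2 * c + Q) ^ 2 := by
        rw [h1]; linear_combination A * h4
      have d1 : |-c - Q| ≤ |D| := le_of_dvd' ⟨A * (-2 * c + Q) ^ 2, by rw [h5]; ring⟩ hD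
      have d2 : |-2 * c + Q| ≤ |D| :=
        le_of_dvd' ⟨A * (-c - Q) * (-2 * c + Q), by rw [h5]; ring⟩ hD
      rw [abs_le] at d1 d2
      have hc : |c| ≤ |D| := by rw [abs_le]; constructor <;> linarith
      have hQ : |Q| ≤ 2 * |D| := by rw [abs_le]; constructor <;> linarith
      refine ⟨by linarith, by linarith, by linarith⟩
    · have hee : |e| ≤ |I| := le_of_dvd' ⟨_, h2⟩ hI
      have he2 : |A * e ^ 2| * |A| ≤ D ^ 2 * I ^ 2 := by
        rw [abs_mul, abs_pow]
        calc |A| * |e| ^ 2 * |A| = |A| ^ 2 * |e| ^ 2 := by ring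
          _ ≤ |D| ^ 2 * |I| ^ 2 := by gcongr
          _ = D ^ 2 * I ^ 2 := by rw [sq_abs, sq_abs]
      have hc : |c| ≤ |D| + D ^ 2 * I ^ 2 := by
        have h6 : |A * (4 * c ^ 3)| ≤ |D| + |A * e ^ 2| * |A| := by
          rw [← abs_mul]
          calc |A * (4 * c ^ 3)| = |D + A * e ^ 2 * A| := by
                rw [h1, ← abs_neg]; congr 1; ring
            _ ≤ |D| + |A * e ^ 2 * A| := abs_add_le _ _
        have h7 : |c| ≤ |A * (4 * c ^ 3)| := by
          by_cases hc0 : c = 0
          · rw [hc0]; norm_num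
          · exact le_of_dvd' ⟨A * 4 * c ^ 2, by ring⟩
              (mul_ne_zero hA0 (mul_ne_zero (by norm_num) (pow_ne_zero 3 hc0)))
        linarith
      have hQ : |Q| ≤ 3 * (|D| + D ^ 2 * I ^ 2) + |I| + |D| * |I| ^ 3 := by
        by_cases hQ0 : Q = 0
        · rw [hQ0, abs_zero]; positivity
        · by_cases hQ3 : Q - 3 * c = 0
          · have : Q = 3 * c := by linarith
            rw [this, abs_mul]
            have : |(3 : ℤ)| = 3 := by norm_num
            rw [this]; linarith
          · have h8 : |Q| ≤ |I + A * e ^ 3| := by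
              refine le_of_dvd' ⟨e * Q * (Q - 3 * c), by rw [h2]; ring⟩ ?_
              have : I + A * e ^ 3 = e * Q ^ 2 * (Q - 3 * c) := by rw [h2]; ring
              rw [this]
              exact mul_ne_zero (mul_ne_zero he (pow_ne_zero 2 hQ0)) hQ3
            have h9 : |I + A * e ^ 3| ≤ |I| + |D| * |I| ^ 3 := by
              refine (abs_add_le _ _).trans ?_
              rw [abs_mul, abs_pow]
              gcongr
            linarith
      refine ⟨by linarith, by linarith, by linarith⟩

/-- the torsion part. -/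
def tau (co : Coord v) : H →+ H :=
  AddMonoidHom.mk' (fun x => x - co.u x • co.z - co.y x • co.w) (by
    intro x y
    simp only [map_add, add_smul]
    abel)

theorem tau_apply (co : Coord v) (x : H) : tau co x = x - co.u x • co.z - co.y x • co.w := rfl

theorem f_tau (co : Coord v) (f : H →+ ℤ) (x : H) : f (tau co x) = 0 := by
  rw [tau_apply, map_sub, map_sub, map_zsmul, map_zsmul, lin co f x]; simp

theorem tau_tau (co : Coord v) (x : H) : tau co (tau co x) = tau co x := by
  rw [tau_apply co (tau co x), f_tau, f_tau, zero_smul, zero_smul, sub_zero, sub_zero]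

theorem tau_gen (co : Coord v) (lam : H →+ ℤ) : tau co (gen co lam) = 0 := by
  rw [tau_apply, u_gen, y_gen, gen]; abel

/-- transport from one kernel to another. -/
def psi (co : Coord v) (lam' : H →+ ℤ) (E : H) : H →+ H :=
  AddMonoidHom.mk' (fun x => fst' co E x • gen co lam' + tau co x) (by
    intro x y
    have : fst' co E (x + y) = fst' co E x + fst' co E y := by
      simp only [fst', map_add]; ring
    rw [this, map_add, add_smul]
    abel)

theorem psi_apply (co : Coord v) (lam' : H →+ ℤ) (E x : H) :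
    psi co lam' E x = fst' co E x • gen co lam' + tau co x := rfl

theorem f_psi (co : Coord v) (lam' : H →+ ℤ) (E : H) (f : H →+ ℤ) (x : H) :
    f (psi co lam' E x) = fst' co E x * f (gen co lam') := by
  rw [psi_apply, map_add, map_zsmul, f_tau, add_zero, smul_eq_mul]

theorem fst'_psi (co : Coord v) {lam' : H →+ ℤ} {E E' : H} (hE' : lam' E' = 1) (x : H) :
    fst' co E' (psi co lam' E x) = fst' co E x := by
  have h1 := pq co hE'
  rw [fst', f_psi co lam' E co.y, f_psi co lam' E co.u, u_gen, y_gen]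
  linear_combination (fst' co E x) * h1

theorem psi_psi (co : Coord v) {lam lam' : H →+ ℤ} {E E' : H} (hE : lam E = 1)
    (hE' : lam' E' = 1) {x : H} (hx : lam x = 0) :
    psi co lam E' (psi co lam' E x) = x := by
  have h1 := pq co hE
  have hx' : co.u x * lam co.z + co.y x * lam co.w = 0 := by rw [← lin co lam x]; exact hx
  rw [psi_apply co lam E' (psi co lam' E x), fst'_psi co hE', psi_apply, map_add, map_zsmul,
    tau_gen, tau_tau, smul_zero, zero_add, gen, smul_add, smul_smul, smul_smul, tau_apply]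
  have e1 : fst' co E x * -(lam co.w) = co.u x := by
    rw [fst']; linear_combination (co.u x) * h1 - co.u E * hx'
  have e2 : fst' co E x * lam co.z = co.y x := by
    rw [fst']; linear_combination (co.y x) * h1 - co.y E * hx'
  rw [e1, e2]; abel

section Blow

variable {A A' : Type*} [AddCommGroup A] [AddCommGroup A']

theorem lam_psi (co : Coord v) (lam' : H →+ ℤ) (E x : H) : lam' (psi co lam' E x) = 0 := by
  rw [f_psi, lam_gen, mul_zero]

theorem apply_fst (φ : (A × ℤ) ≃+ H) {x : H} (hx : lamOf φ x = 0) :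
    φ ((φ.symm x).1, 0) = x := by
  rw [lamOf_apply] at hx
  rw [← hx, Prod.mk.eta, AddEquiv.apply_symm_apply]

theorem lam_zero (φ : (A × ℤ) ≃+ H) (a : A) : lamOf φ (φ (a, 0)) = 0 := by
  rw [lamOf_apply, AddEquiv.symm_apply_apply]

theorem lam_one (φ : (A × ℤ) ≃+ H) : lamOf φ (φ (0, 1)) = 1 := by
  rw [lamOf_apply, AddEquiv.symm_apply_apply]

/-- equal data give isomorphic triples. -/
theorem iso_gen (h12 : ∀ x y z, B x y z = B y x z) (h23 : ∀ x y z, B x y z = B x z y)
    (co : Coord v) {F0 : A → ℤ} {C : A →+ ℤ} {e : ℤ}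
    {F0' : A' → ℤ} {C' : A' →+ ℤ} {e' : ℤ} (pp : H →+ ℤ) {p0 : A → ℤ} {p0' : A' → ℤ}
    (φ : (A × ℤ) ≃+ H)
    (hφ : ∀ a t, B (φ (a, t)) (φ (a, t)) (φ (a, t)) = F0 a - 3 * t ^ 2 * C a + e * t ^ 3)
    (hp : ∀ a t, pp (φ (a, t)) = p0 a - 3 * C a + e * t) (hF : ∃ a, F0 a ≠ 0)
    (φ' : (A' × ℤ) ≃+ H)
    (hφ' : ∀ a t, B (φ' (a, t)) (φ' (a, t)) (φ' (a, t)) =
      F0' a - 3 * t ^ 2 * C' a + e' * t ^ 3)
    (hp' : ∀ a t, pp (φ' (a, t)) = p0' a - 3 * C' a + e' * t) (hF' : ∃ a, F0' a ≠ 0)
    (hA : B (gen co (lamOf φ)) (gen co (lamOf φ)) (gen co (lamOf φ)) =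
      B (gen co (lamOf φ')) (gen co (lamOf φ')) (gen co (lamOf φ')))
    (hc : B (gen co (lamOf φ)) (φ (0, 1)) (φ (0, 1)) =
      B (gen co (lamOf φ')) (φ' (0, 1)) (φ' (0, 1)))
    (hQ : pp (gen co (lamOf φ)) = pp (gen co (lamOf φ'))) :
    TIso F0 p0 F0' p0' := by
  have hS := sol_of_blow h12 h23 φ hφ hF
  have hS' := sol_of_blow h12 h23 φ' hφ' hF'
  set E := φ (0, 1) with hEdef
  set E' := φ' (0, 1) with hEdef'
  set lam := lamOf φ with hlam
  set lam' := lamOf φ' with hlam'
  let f : A → A' := fun a => (φ'.symm (psi co lam' E (φ (a, 0)))).1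
  have hf : ∀ a, φ' (f a, 0) = psi co lam' E (φ (a, 0)) := fun a =>
    apply_fst φ' (lam_psi co lam' E _)
  let g : A' → A := fun b => (φ.symm (psi co lam E' (φ' (b, 0)))).1
  have hg : ∀ b, φ (g b, 0) = psi co lam E' (φ' (b, 0)) := fun b =>
    apply_fst φ (lam_psi co lam E' _)
  let ψ : A ≃+ A' :=
    { toFun := f
      invFun := g
      left_inv := by
        intro a
        have h1 : φ (g (f a), 0) = φ (a, 0) := by
          rw [hg, hf]; exact psi_psi co hS.lamE hS'.lamE (lam_zero φ a)
        exact congrArg Prod.fst (φ.injective h1)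
      right_inv := by
        intro b
        have h1 : φ' (f (g b), 0) = φ' (b, 0) := by
          rw [hf, hg]; exact psi_psi co hS'.lamE hS.lamE (lam_zero φ' b)
        exact congrArg Prod.fst (φ'.injective h1)
      map_add' := by
        intro a b
        have h1 : φ' (f (a + b), 0) = φ' (f a + f b, 0) := by
          have h2 : φ' (f a + f b, 0) = φ' (f a, 0) + φ' (f b, 0) := by
            rw [← map_add]; simp
          have h3 : φ (a + b, 0) = φ (a, 0) + φ (b, 0) := by
            rw [← map_add]; simp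
          rw [h2, hf, hf, hf, h3, map_add]
        exact congrArg Prod.fst (φ'.injective h1) }
  have hx0 : ∀ a, lam (φ (a, 0)) = 0 := lam_zero φ
  have hfE : fst' co E E = 0 := by rw [fst']; ring
  have hfE' : fst' co E' E' = 0 := by rw [fst']; ring
  -- values of the forms
  have v1 : ∀ a, F0' (f a) = F0 a := by
    intro a
    have h1 := hφ a 0
    have h2 := hφ' (f a) 0
    rw [hf, cubic2 h12 h23 co hS', fst'_psi co hS'.lamE, lam_psi, ← hA] at h2
    rw [cubic2 h12 h23 co hS, hx0] at h1
    linarith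
  have v2 : ∀ a, C' (f a) = C a := by
    intro a
    have h1 := blow_C h12 h23 φ hφ a
    have h2 := blow_C h12 h23 φ' hφ' (f a)
    rw [hf, cubic2 h12 h23 co hS', fst'_psi co hS'.lamE, lam_psi, ← hEdef', hS'.lamE, hfE',
      ← hc] at h2
    rw [cubic2 h12 h23 co hS, hx0, ← hEdef, hS.lamE, hfE] at h1
    linarith
  have v3 : ∀ a, p0' (f a) = p0 a := by
    intro a
    have h1 := hp a 0
    have h2 := hp' (f a) 0
    rw [hf, f_psi, v2, ← hQ] at h2
    rw [lin2 co hS.lamE pp (φ (a, 0)), hx0] at h1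
    linarith
  exact ⟨ψ, v1, v3⟩

end Blow

/-- a decomposition with vanishing discriminant has a singular vector. -/
theorem sing_of_disc (h12 : ∀ x y z, B x y z = B y x z) (h23 : ∀ x y z, B x y z = B x z y)
    (co : Coord v) {lam : H →+ ℤ} {E : H} (h : Sol B lam E) (h0 : disc B co = 0) :
    ∃ v : H, (∀ n : ℤ, n • v = 0 → n = 0) ∧ ∀ x, B v v x = 0 := by
  rw [disc_eq h12 h23 co h] at h0
  set a := gen co lam with ha
  have hlE : lam E = 1 := h.lamE
  have hla : lam a = 0 := lam_gen co lam
  have hfE : fst' co E E = 0 := by rw [fst']; ring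
  have hfa : fst' co E a = 1 := by
    rw [fst', ha, u_gen, y_gen]; linear_combination pq co hlE
  have hA : B a a a ≠ 0 := by
    obtain ⟨x, hx, hne'⟩ := h.ne
    intro h1
    apply hne'
    rw [cubic2 h12 h23 co h, hx, ← ha, h1]; ring
  have hr0 := (mul_eq_zero.1 h0).resolve_left hA
  have hquad : ∀ w x : H, B w w x = (fst' co E x) * B w w a + lam x * B w w E :=
    fun w x => lin2 co hlE (B w w) x
  by_cases hc : B a E E = 0
  · have he : B E E E = 0 := by
      rw [hc] at hr0
      have h5 : B a a a * B E E E ^ 2 = 0 := by linarith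
      exact (pow_eq_zero_iff two_ne_zero).1 ((mul_eq_zero.1 h5).resolve_left hA)
    refine ⟨E, ?_, ?_⟩
    · intro n hn
      have h1 := congrArg lam hn
      rw [map_zsmul, hlE, map_zero] at h1
      simpa using h1
    · intro x
      have h5 : B E E a = B a E E := by rw [h23, h12]
      rw [hquad E x, h5, hc, he]; ring
  · refine ⟨(B E E E) • a - (2 * B a E E) • E, ?_, ?_⟩
    · intro n hn
      have h1 := congrArg lam hn
      rw [map_zsmul, map_sub, map_zsmul, map_zsmul, hlE, hla, map_zero] at h1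
      simp only [smul_eq_mul, mul_zero, mul_one, zero_sub, mul_neg, neg_eq_zero] at h1
      rcases mul_eq_zero.1 h1 with h | h
      · exact h
      · exact absurd h (mul_ne_zero two_ne_zero hc)
    · intro x
      set w := (B E E E) • a - (2 * B a E E) • E with hw
      have f1 : fst' co E w = B E E E := by
        have : fst' co E w = B E E E * fst' co E a - (2 * B a E E) * fst' co E E := by
          simp only [fst', hw, map_sub, map_zsmul, smul_eq_mul]; ring
        rw [this, hfa, hfE]; ring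
      have f2 : lam w = -(2 * B a E E) := by
        rw [hw, map_sub, map_zsmul, map_zsmul, hlE, hla]; simp
      rw [cubic2 h12 h23 co h, f1, f2, ← ha]
      linear_combination (-(fst' co E x)) * hr0

/-- **Rank two.**  Up to isomorphism finitely many triples `(A, F0, p0)`, `F0` nonzero, have a
given triple of rank two as blow-up in a curve. -/
theorem curve_finite [Module.Finite ℤ H] (hr : finrank ℤ H = 2)
    (h12 : ∀ x y z, B x y z = B y x z) (h23 : ∀ x y z, B x y z = B x z y) (p : H →+ ℤ)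
    {ι : Type*} (A : ι → Type*) [∀ i, AddCommGroup (A i)] (F0 p0 : ∀ i, A i → ℤ)
    (hF : ∀ i, ∃ a, F0 i a ≠ 0)
    (hb : ∀ i, ∃ (C : A i →+ ℤ) (e : ℤ), CurveBlowUp (F0 i) (p0 i) C e (fun x => B x x x) p)
    (hne : ∀ i j, i ≠ j → ¬ TIso (F0 i) (p0 i) (F0 j) (p0 j)) : Finite ι := by
  classical
  rcases isEmpty_or_nonempty ι with hι | ⟨⟨i0⟩⟩
  · exact inferInstance
  by_cases hsing : ∃ v : H, (∀ n : ℤ, n • v = 0 → n = 0) ∧ ∀ x, B v v x = 0
  · obtain ⟨v, hv, hs⟩ := hsing
    exact (curve_two hr h12 h23 hv hs p A F0 p0 hF hb hne).1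
  · choose C e φ hφ using hb
    have hS := fun i => sol_of_blow h12 h23 (φ i) (fun a t => (hφ i a t).1) (hF i)
    -- coordinates from the exceptional class of the first solution
    obtain ⟨co⟩ := exists_coord hr (φ i0 (0, 1)) (by
      intro n hn
      have h1 := congrArg (lamOf (φ i0)) hn
      rw [map_zsmul, lam_one, map_zero] at h1
      simpa using h1)
    have hD : disc B co ≠ 0 := fun h0 => hsing (sing_of_disc h12 h23 co (hS i0) h0)
    -- the bound
    set D := disc B co with hDdef
    set I := B (perpVec co p) (perpVec co p) (perpVec co p) with hI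
    obtain ⟨N, hN⟩ := box D I (|p co.z| + |p co.w|) hD
    have hpe : ∀ i, p (φ i (0, 1)) = B (φ i (0, 1)) (φ i (0, 1)) (φ i (0, 1)) := by
      intro i
      have h1 := (hφ i 0 1).1
      have h2 := (hφ i 0 1).2
      have h3 := (hφ i 0 0).2
      have h4 : φ i ((0 : A i), (0 : ℤ)) = 0 := map_zero (φ i)
      rw [h4, map_zero, map_zero] at h3
      rw [blow_zero (φ i) (fun a t => (hφ i a t).1), map_zero] at h1
      rw [map_zero] at h2
      simp only at h1 h2
      linarith
    have hbox := fun i => hN _ _ _ _ (disc_eq h12 h23 co (hS i))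
      (perp_eq h12 h23 co (hS i) p (hpe i)) (by
        intro h0
        have hE0 : p (φ i (0, 1)) = 0 := by rw [hpe i]; exact h0
        have hz := lin2 co (hS i).lamE p co.z
        have hw := lin2 co (hS i).lamE p co.w
        rw [hE0, mul_zero, add_zero] at hz hw
        by_cases hz0 : p co.z = 0
        · by_cases hw0 : p co.w = 0
          · rw [lin co p (gen co (lamOf (φ i))), hz0, hw0]; simp
          · have := le_of_dvd' (a := p (gen co (lamOf (φ i)))) ⟨fst' co (φ i (0, 1)) co.w,
              by rw [hw]; ring⟩ hw0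
            have h5 := abs_nonneg (p co.z)
            linarith
        · have := le_of_dvd' (a := p (gen co (lamOf (φ i)))) ⟨fst' co (φ i (0, 1)) co.z,
            by rw [hz]; ring⟩ hz0
          have h5 := abs_nonneg (p co.w)
          linarith)
    let g : ι → Set.Icc (-N) N × Set.Icc (-N) N × Set.Icc (-N) N := fun i =>
      ⟨⟨_, abs_le.1 (hbox i).1⟩, ⟨_, abs_le.1 (hbox i).2.1⟩, ⟨_, abs_le.1 (hbox i).2.2⟩⟩
    apply Finite.of_injective g
    intro i j hij
    by_contra hne'
    apply hne i j hne'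
    have e1 := congrArg (fun x => (x.1 : ℤ)) hij
    have e2 := congrArg (fun x => (x.2.1 : ℤ)) hij
    have e3 := congrArg (fun x => (x.2.2 : ℤ)) hij
    exact iso_gen h12 h23 co p (φ i) (fun a t => (hφ i a t).1) (fun a t => (hφ i a t).2)
      (hF i) (φ j) (fun a t => (hφ j a t).1) (fun a t => (hφ j a t).2) (hF j) e1 e2 e3

end Pool.Agent.MP77.H93
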