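import Mathlib
import Pool.Agent.Lib.MP_77ebfb_ag.H93.RankTwoB

/-!
# Rank two: finitely many classes downstairs
-/

namespace Pool.Agent.MP77.H93

open Module Pool.Agent.MP77.H10

variable {H : Type*} [AddCommGroup H] {B : H →+ H →+ H →+ ℤ} {v : H}

theorem tiso_symm {A A' : Type*} [AddCommGroup A] [AddCommGroup A'] {F p : A → ℤ}
    {F' p' : A' → ℤ} (h : TIso F p F' p') : TIso F' p' F p := by
  obtain ⟨φ, h1, h2⟩ := h
  refine ⟨φ.symm, fun a => ?_, fun a => ?_⟩
  · rw [← h1, AddEquiv.apply_symm_apply]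
  · rw [← h2, AddEquiv.apply_symm_apply]

theorem tiso_trans {A A' A'' : Type*} [AddCommGroup A] [AddCommGroup A'] [AddCommGroup A'']
    {F p : A → ℤ} {F' p' : A' → ℤ} {F'' p'' : A'' → ℤ} (h : TIso F p F' p')
    (h' : TIso F' p' F'' p'') : TIso F p F'' p'' := by
  obtain ⟨φ, h1, h2⟩ := h
  obtain ⟨ψ, h3, h4⟩ := h'
  refine ⟨φ.trans ψ, fun a => ?_, fun a => ?_⟩
  · rw [AddEquiv.trans_apply, h3, h1]
  · rw [AddEquiv.trans_apply, h4, h2]

/-- with a singular vector there is no isolated vector with nonzero form on the kernel. -/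
theorem top_of_reach (h12 : ∀ x y z, B x y z = B y x z) (h23 : ∀ x y z, B x y z = B x z y)
    (co : Coord v) (hs : ∀ x, B v v x = 0) {K : AddSubgroup H} (hK : Reach B K)
    (hne : ∃ x ∈ K, B x x x ≠ 0) : K = ⊤ := by
  induction hK with
  | top => rfl
  | @step K E hK hE ih =>
    exfalso
    obtain ⟨x, hx, hFx⟩ := hne
    have hKt : K = ⊤ := ih ⟨x, hx.1, hFx⟩
    subst hKt
    obtain ⟨-, hEn, hEm⟩ := hE
    have hxk : B E E x = 0 := hx.2
    have h1 : B E E v = 0 := by
      have h2 := hEm v trivial v trivial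
      have h3 : B E v v = 0 := by rw [h12, h23]; exact hs E
      rw [h3, mul_zero] at h2
      exact mul_self_eq_zero.1 h2.symm
    have h4 : B E E co.w = 0 := by
      have h5 := lin co (B E E) v
      rw [h1, co.uv, zero_mul, zero_add] at h5
      exact (mul_eq_zero.1 h5.symm).resolve_left co.yv
    have h6 : B E E co.z ≠ 0 := by
      intro h7
      apply hEn
      rw [lin co (B E E) E, h7, h4]; ring
    have h8 : co.u x = 0 := by
      have h9 := lin co (B E E) x
      rw [hxk, h4, mul_zero, add_zero] at h9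
      exact (mul_eq_zero.1 h9.symm).resolve_right h6
    apply hFx
    rw [expand h23 h12 co hs, h8]; ring

theorem rank_two [Module.Finite ℤ H] (hr : finrank ℤ H = 2)
    (h12 : ∀ x y z, B x y z = B y x z) (h23 : ∀ x y z, B x y z = B x z y) (p : H →+ ℤ)
    {ι : Type*} (A : ι → Type*) [∀ i, AddCommGroup (A i)] (F0 p0 : ∀ i, A i → ℤ)
    (hF : ∀ i, ∃ a, F0 i a ≠ 0)
    (hb : ∀ i, PointContraction (F0 i) (p0 i) B p ∨
      ∃ (C : A i →+ ℤ) (e : ℤ), CurveBlowUp (F0 i) (p0 i) C e (fun x => B x x x) p)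
    (hne : ∀ i j, i ≠ j → ¬ TIso (F0 i) (p0 i) (F0 j) (p0 j)) :
    Finite ι ∧
      ((∃ v : H, (∀ n : ℤ, n • v = 0 → n = 0) ∧ ∀ x, B v v x = 0) → Nat.card ι ≤ 3) := by
  classical
  let P : ι → Prop := fun i => PointContraction (F0 i) (p0 i) B p
  let Q : ι → Prop := fun i => ∃ (C : A i →+ ℤ) (e : ℤ),
    CurveBlowUp (F0 i) (p0 i) C e (fun x => B x x x) p
  have fP : Finite {i // P i} :=
    (contr_bound h12 h23 p (fun i : {i // P i} => A i.1) (fun i => F0 i.1) (fun i => p0 i.1)
      (fun i => i.2) (fun i j hij => hne i.1 j.1 (fun h => hij (Subtype.ext h)))).1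
  have fQ : Finite {i // Q i} :=
    curve_finite hr h12 h23 p (fun i : {i // Q i} => A i.1) (fun i => F0 i.1)
      (fun i => p0 i.1) (fun i => hF i.1) (fun i => i.2)
      (fun i j hij => hne i.1 j.1 (fun h => hij (Subtype.ext h)))
  let g : ι → {i // P i} ⊕ {i // Q i} := fun i =>
    if h : P i then Sum.inl ⟨i, h⟩ else Sum.inr ⟨i, (hb i).resolve_left h⟩
  have hg : Function.Injective g := by
    intro i j hij
    simp only [g] at hij
    split_ifs at hij with h1 h2 h2
    · exact congrArg Subtype.val (Sum.inl.inj hij)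
    · exact congrArg Subtype.val (Sum.inr.inj hij)
  refine ⟨Finite.of_injective g hg, ?_⟩
  rintro ⟨v, hv, hs⟩
  obtain ⟨co⟩ := exists_coord hr v hv
  have cQ : Nat.card {i // Q i} ≤ 2 :=
    (curve_two hr h12 h23 hv hs p (fun i : {i // Q i} => A i.1) (fun i => F0 i.1)
      (fun i => p0 i.1) (fun i => hF i.1) (fun i => i.2)
      (fun i j hij => hne i.1 j.1 (fun h => hij (Subtype.ext h)))).2
  have cP : Nat.card {i // P i} ≤ 1 := by
    have : Subsingleton {i // P i} := by
      constructor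
      rintro ⟨i, K, hK, hi⟩ ⟨j, L, hL, hj⟩
      have hKt : K = ⊤ := by
        apply top_of_reach h12 h23 co hs hK
        obtain ⟨a, ha⟩ := hF i
        obtain ⟨φ, h1, -⟩ := hi
        exact ⟨φ a, (φ a).2, by rw [← h1] at ha; exact ha⟩
      have hLt : L = ⊤ := by
        apply top_of_reach h12 h23 co hs hL
        obtain ⟨a, ha⟩ := hF j
        obtain ⟨φ, h1, -⟩ := hj
        exact ⟨φ a, (φ a).2, by rw [← h1] at ha; exact ha⟩
      subst hKt hLt
      apply Subtype.ext
      by_contra hij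
      exact hne i j hij (tiso_trans hi (tiso_symm hj))
    exact Finite.card_le_one_iff_subsingleton.2 this
  have h1 := Nat.card_le_card_of_injective g hg
  rw [Nat.card_sum] at h1
  omega

end Pool.Agent.MP77.H93
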